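import Pool.Agent.Helper92.GG.Stmts
import Pool.Agent.Helper92.GG.RK

/-! # Module SETUP: existence of the global set-up -/

set_option autoImplicit false

namespace Pool.Agent.Helper92.GG

open MvPolynomial
open Pool.Agent.Helper49.Girth (cl mem_cl mem_cl' coe_cl subset_cl mem_cl_of_mem cl_le_cl cl_mono
  root_mem_cl aeval_mem ty ty_zero ty_succ ty_add ty_two ty_add_two ty_not)

universe u

section basic

variable {K : Type u} [Field K] {n : ℕ} {P : Ideal (MvPolynomial (Fin n ⊕ Fin n) K)}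
  {L : Type u} [Field L] [Algebra K L]

theorem SETUP_edge_symm {σ : Bool} {x y : Fin n → L} (h : Edge P σ x y) : Edge P (!σ) y x := by
  unfold Edge at h ⊢
  cases σ <;> exact h

theorem SETUP_edge_symm' {σ : Bool} {x y : Fin n → L} (h : Edge P (!σ) y x) : Edge P σ x y := by
  have := SETUP_edge_symm h
  rwa [Bool.not_not] at this

theorem SETUP_vtx_of_edge {σ : Bool} {x y : Fin n → L} (h : Edge P σ x y) : Vtx P σ x := by
  unfold Vtx
  unfold Edge at h
  rw [← h]
  ext f
  rw [RingHom.mem_ker, Ideal.mem_comap, RingHom.mem_ker]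
  have : (aeval (R := K) (Sum.elim (cond σ x y) (cond σ y x)))
      ((rename (R := K) (cond σ (Sum.inl : Fin n → Fin n ⊕ Fin n) Sum.inr)).toRingHom f) =
      aeval x f := by
    change (aeval (R := K) (Sum.elim (cond σ x y) (cond σ y x)))
      (rename (R := K) (cond σ (Sum.inl : Fin n → Fin n ⊕ Fin n) Sum.inr) f) = _
    rw [aeval_rename]
    cases σ <;> rfl
  rw [this]

theorem SETUP_vtx_of_edge' {σ : Bool} {x y : Fin n → L} (h : Edge P σ x y) : Vtx P (!σ) y :=
  SETUP_vtx_of_edge (SETUP_edge_symm h)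

theorem SETUP_vtx_conj {L' : Type u} [Field L'] [Algebra K L'] {σ : Bool} {x : Fin n → L}
    {x' : Fin n → L'} (h : Vtx P σ x) (h' : Vtx P σ x') : Conj K x x' := by
  rw [conj_iff_ker]
  unfold Vtx at h h'
  rw [h, h']

theorem SETUP_vtx_of_conj {L' : Type u} [Field L'] [Algebra K L'] {σ : Bool} {x : Fin n → L}
    {x' : Fin n → L'} (h : Vtx P σ x) (h' : Conj K x x') : Vtx P σ x' := by
  rw [conj_iff_ker] at h'
  unfold Vtx at h ⊢
  rw [← h', h]

end basic

section sys

variable {K : Type u} [Field K] [IsAlgClosed K] {n m k : ℕ}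

theorem SETUP_exists_vtx (S : Sys K n m k) (σ : Bool) :
    ∃ (L : Type u) (_ : Field L) (_ : Algebra K L) (x y : Fin n → L), Edge S.P σ x y := by
  obtain ⟨L, i1, i2, x, y, h⟩ := S.ne
  have h' : Edge S.P false y x := by
    have h1 := SETUP_edge_symm h
    rwa [Bool.not_true] at h1
  rcases Bool.eq_false_or_eq_true σ with hσ | hσ
  · rw [hσ]; exact ⟨L, i1, i2, x, y, h⟩
  · rw [hσ]; exact ⟨L, i1, i2, y, x, h'⟩

theorem SETUP_rk_vtx (S : Sys K n m k) {L : Type u} [Field L] [Algebra K L] {σ : Bool}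
    {x : Fin n → L} (h : Vtx S.P σ x) : rk K (Set.range x) = m * k := by
  obtain ⟨L0, i1, i2, x0, y0, h0⟩ := SETUP_exists_vtx S σ
  have hc : Conj K x x0 := SETUP_vtx_conj h (SETUP_vtx_of_edge h0)
  have h1 := hc.spec.rk_le
  have h2 := hc.symm.spec.rk_le
  have h3 := S.rkV L0 σ x0 y0 h0
  omega

/-- a neighbour is algebraic over the vertex and its separating coordinate -/
theorem SETUP_nbr_cl (S : SysT K n m) {L : Type u} [Field L] [Algebra K L] {σ : Bool}
    {x y : Fin n → L} (h : Edge S.P σ x y) :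
    Set.range y ⊆ cl K (insert (y (S.t (!σ))) (Set.range x)) := by
  have h1 := S.rkV L σ x y h
  have h2 := S.rkE L σ x y h
  have h3 := rk_insert_of_notMem (Set.finite_range x) (S.trans L σ x y h)
  have hf : (Set.range x ∪ Set.range y).Finite := (Set.finite_range x).union (Set.finite_range y)
  have h4 : insert (y (S.t (!σ))) (Set.range x) ⊆ Set.range x ∪ Set.range y := by
    rintro a (rfl | ha)
    · exact Or.inr ⟨_, rfl⟩
    · exact Or.inl ha
  have h5 := subset_cl_of_rk_le (K := K) hf h4 (by rw [h3, h1, h2]; apply le_of_eq; ring)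
  intro a ha
  exact h5 (Or.inr ha)

/-- same as above, with the data in a closure -/
theorem SETUP_nbr_cl' (S : SysT K n m) {L : Type u} [Field L] [Algebra K L] {σ : Bool}
    {x y : Fin n → L} (h : Edge S.P σ x y) {C : Set L} (hx : ∀ i, x i ∈ cl K C)
    (hy : y (S.t (!σ)) ∈ cl K C) : ∀ i, y i ∈ cl K C := by
  intro i
  have h1 := SETUP_nbr_cl S h ⟨i, rfl⟩
  refine cl_le_cl ?_ h1
  rintro a (rfl | ⟨j, rfl⟩)
  · exact hy
  · exact hx j

/-- Arms: walks with prescribed separating coordinates. -/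
theorem SETUP_arm (hSTEP1 : ST_STEP1.{u}) (S : SysT K n m) {L : Type u} [Field L] [Algebra K L]
    [IsAlgClosed L] (σ : Bool) (y₀ : Fin n → L) (T : ℕ → L) (C : ℕ → Set L)
    (hC : ∀ i, C i ⊆ C (i + 1)) (hT : ∀ i, T i ∉ cl K (C i)) (hT' : ∀ i, T i ∈ C (i + 1))
    (h0 : Vtx S.P σ y₀) (h0' : ∀ i, y₀ i ∈ cl K (C 0)) :
    ∃ b : ℕ → Fin n → L, b 0 = y₀ ∧ (∀ i, Edge S.P (ty σ i) (b i) (b (i + 1))) ∧
      (∀ i, b (i + 1) (S.t (!(ty σ i))) = T i) ∧ ∀ i c, b i c ∈ cl K (C i) := by
  classical
  have step : ∀ (i : ℕ) (y : {y : Fin n → L // Vtx S.P (ty σ i) y ∧ ∀ c, y c ∈ cl K (C i)}),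
      ∃ y' : {y : Fin n → L // Vtx S.P (ty σ (i + 1)) y ∧ ∀ c, y c ∈ cl K (C (i + 1))},
        Edge S.P (ty σ i) y.1 y'.1 ∧ y'.1 (S.t (!(ty σ i))) = T i := by
    intro i y
    have h1 : T i ∉ cl K (Set.range y.1) := by
      intro h
      apply hT i
      refine cl_le_cl ?_ h
      rintro a ⟨c, rfl⟩
      exact y.2.2 c
    obtain ⟨y', hy', hyt⟩ := hSTEP1 K n m S L (ty σ i) y.1 (T i) y.2.1 h1
    refine ⟨⟨y', ?_, ?_⟩, hy', hyt⟩
    · rw [ty_succ]; exact SETUP_vtx_of_edge' hy'
    · refine SETUP_nbr_cl' S hy' (fun c => cl_mono (hC i) (y.2.2 c)) ?_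
      rw [hyt]; exact mem_cl_of_mem (hT' i)
  choose f hf hf' using step
  let b : ∀ i : ℕ, {y : Fin n → L // Vtx S.P (ty σ i) y ∧ ∀ c, y c ∈ cl K (C i)} :=
    fun i => Nat.rec ⟨y₀, h0, h0'⟩ (fun i y => f i y) i
  refine ⟨fun i => (b i).1, rfl, fun i => hf i (b i), fun i => hf' i (b i), fun i => (b i).2.2⟩

omit [IsAlgClosed K] in
/-- Independent sequences in big fields. -/
theorem SETUP_seq {Ω : Type u} [Field Ω] [Algebra K Ω] [Big K Ω] (A₀ : Set Ω) (hA : A₀.Finite) :
    ∃ (τ : ℕ → Ω) (A : ℕ → Set Ω), A 0 = A₀ ∧ (∀ i, (A i).Finite) ∧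
      (∀ i, A (i + 1) = insert (τ i) (A i)) ∧ ∀ i, τ i ∉ cl K (A i) := by
  classical
  have h : ∀ s : {s : Set Ω // s.Finite}, ∃ a : Ω, a ∉ cl K s.1 := fun s => Big.big s.1 s.2
  choose g hg using h
  let B : ℕ → {s : Set Ω // s.Finite} :=
    fun i => Nat.rec ⟨A₀, hA⟩ (fun _ s => ⟨insert (g s) s.1, s.2.insert _⟩) i
  exact ⟨fun i => g (B i), fun i => (B i).1, rfl, fun i => (B i).2, fun i => rfl,
    fun i => hg (B i)⟩

theorem SETUP_ty (σ : Bool) (a : ℕ) : ty σ a = if a % 2 = 0 then σ else !σ := by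
  induction a with
  | zero => rfl
  | succ a ih =>
    rw [ty_succ, ih]
    by_cases h : a % 2 = 0
    · have h' : ¬ (a + 1) % 2 = 0 := by omega
      rw [if_pos h, if_neg h']
    · have h' : (a + 1) % 2 = 0 := by omega
      rw [if_neg h, if_pos h', Bool.not_not]

theorem SETUP_ty_eq (σ : Bool) {a b : ℕ} (h : a % 2 = b % 2) : ty σ a = ty σ b := by
  rw [SETUP_ty, SETUP_ty, h]

theorem SETUP_ty_ne (σ : Bool) {a b : ℕ} (h : (a + 1) % 2 = b % 2) : ty σ a = !(ty σ b) := by
  rw [SETUP_ty_eq σ h.symm, ty_succ, Bool.not_not]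

/-- the walk `c` of the set-up -/
theorem SETUP_tail (hSTEP1 : ST_STEP1.{u}) (hENDS : ST_ENDS.{u}) (hGNB : ST_GNB.{u})
    (S : SysT K n m) {L : Type u} [Field L] [Algebra K L] [IsAlgClosed L] (ρ : Bool)
    (x : Fin n → L) (hx : Vtx S.P (ty ρ (m - 1)) x) (τ : ℕ → L) (A : ℕ → Set L)
    (hA0 : A 0 = Set.range x) (hAf : ∀ i, (A i).Finite)
    (hA : ∀ i, A (i + 1) = insert (τ i) (A i)) (hτ : ∀ i, τ i ∉ cl K (A i))
    (z z' : Fin n → L) (hz : z ∈ Fib S (ty ρ (m - 1)) x (τ 0))
    (hz' : z' ∈ Fib S (ty ρ (m - 1)) x (τ 1)) :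
    ∃ c : ℕ → Fin n → L, IsWalk S.P ρ (2 * m - 1) c ∧
      pts c (Set.Iic (2 * m - 1)) ⊆ cl K (A (2 * m - 1)) ∧
      rk K (pts c (Set.Iic (2 * m - 1))) + 1 = 3 * m ∧ c (m - 1) = x ∧ c (m - 2) = z ∧
      c m = z' ∧ 2 * m ≤ rk K (Set.range x ∪ Set.range (c (2 * m - 1))) := by
  have hm : 2 ≤ m := S.two_le
  have hmono : ∀ i j, i ≤ j → A i ⊆ A j := by
    intro i j hij
    induction j, hij using Nat.le_induction with
    | base => exact subset_rfl
    | succ j _ ih => rw [hA]; exact ih.trans (Set.subset_insert _ _)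
  have hmem : ∀ i j, i < j → τ i ∈ A j := by
    intro i j hij
    apply hmono (i + 1) j hij
    rw [hA]; exact Set.mem_insert _ _
  have hrkA : ∀ i, rk K (A i) = m + i := by
    intro i
    induction i with
    | zero => rw [hA0, SETUP_rk_vtx S.toSys hx]; ring
    | succ i ih => rw [hA, rk_insert_of_notMem (hAf i) (hτ i), ih]; ring
  have hxA : ∀ i c, x c ∈ cl K (A i) := by
    intro i c
    apply mem_cl_of_mem
    apply hmono 0 i (Nat.zero_le i)
    rw [hA0]; exact ⟨c, rfl⟩
  obtain ⟨hze, hzt⟩ := hz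
  obtain ⟨hze', hzt'⟩ := hz'
  have hzA : ∀ c, z c ∈ cl K (A 1) := by
    refine SETUP_nbr_cl' S hze (hxA 1) ?_
    rw [hzt]; exact mem_cl_of_mem (hmem 0 1 (by omega))
  have hzA' : ∀ c, z' c ∈ cl K (A 2) := by
    refine SETUP_nbr_cl' S hze' (hxA 2) ?_
    rw [hzt']; exact mem_cl_of_mem (hmem 1 2 (by omega))
  -- the two arms
  obtain ⟨f, hf0, hfe, hft, hfA⟩ := SETUP_arm hSTEP1 S (!(ty ρ (m - 1))) z' (fun i => τ (2 + i))
    (fun i => A (2 + i)) (fun i => hmono _ _ (by omega)) (fun i => hτ _)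
    (fun i => hmem _ _ (by omega)) (SETUP_vtx_of_edge' hze') hzA'
  obtain ⟨b, hb0, hbe, hbt, hbA⟩ := SETUP_arm hSTEP1 S (!(ty ρ (m - 1))) z
    (fun i => τ (m + 1 + i)) (fun i => A (m + 1 + i)) (fun i => hmono _ _ (by omega))
    (fun i => hτ _) (fun i => hmem _ _ (by omega)) (SETUP_vtx_of_edge' hze)
    (fun c => cl_mono (hmono _ _ (by omega)) (hzA c))
  set c : ℕ → Fin n → L := fun i => if i + 1 < m then b (m - 2 - i) else
    if i + 1 = m then x else f (i - m) with hc
  have c1 : ∀ i, i + 1 < m → c i = b (m - 2 - i) := fun i hi => by simp only [hc]; rw [if_pos hi]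
  have c2 : ∀ i, i + 1 = m → c i = x := fun i hi => by
    simp only [hc]; rw [if_neg (by omega), if_pos hi]
  have c3 : ∀ i, m < i + 1 → c i = f (i - m) := fun i hi => by
    simp only [hc]; rw [if_neg (by omega), if_neg (by omega)]
  have hne : (!(ty ρ (m - 1))) = ty ρ m := by
    have : m = (m - 1) + 1 := by omega
    conv_rhs => rw [this]
    rw [ty_succ]
  have hwalk : IsWalk S.P ρ (2 * m - 1) c := by
    intro i hi
    rcases lt_trichotomy (i + 1) m with h | h | h
    · by_cases h2 : i + 2 < m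
      · rw [c1 i h, c1 (i + 1) h2]
        have e1 : m - 2 - i = (m - 3 - i) + 1 := by omega
        have e2 : m - 2 - (i + 1) = m - 3 - i := by omega
        rw [e1, e2]
        have h3 := SETUP_edge_symm (hbe (m - 3 - i))
        rw [hne, ← ty_add] at h3
        rw [SETUP_ty_ne ρ (a := i) (b := m + (m - 3 - i)) (by omega)]
        exact h3
      · have h3 : m - 2 - i = 0 := by omega
        rw [c1 i h, c2 (i + 1) (by omega), h3, hb0]
        have h4 := SETUP_edge_symm hze
        rw [SETUP_ty_ne ρ (a := i) (b := m - 1) (by omega)]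
        exact h4
    · rw [c2 i h, c3 (i + 1) (by omega)]
      have h3 : i + 1 - m = 0 := by omega
      rw [h3, hf0]
      have h4 : i = m - 1 := by omega
      rw [h4]
      exact hze'
    · rw [c3 i h, c3 (i + 1) (by omega)]
      have e1 : i + 1 - m = (i - m) + 1 := by omega
      rw [e1]
      have h3 := hfe (i - m)
      rw [hne, ← ty_add] at h3
      have e2 : m + (i - m) = i := by omega
      rw [e2] at h3
      exact h3
  have hsub : pts c (Set.Iic (2 * m - 1)) ⊆ cl K (A (2 * m - 1)) := by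
    intro a ha
    simp only [pts, Set.mem_iUnion] at ha
    obtain ⟨i, hi, d, rfl⟩ := ha
    have hi' : i ≤ 2 * m - 1 := hi
    rcases lt_trichotomy (i + 1) m with h | h | h
    · rw [c1 i h]
      exact cl_mono (hmono _ _ (by omega)) (hbA (m - 2 - i) d)
    · rw [c2 i h]
      exact hxA _ d
    · rw [c3 i h]
      exact cl_mono (hmono _ _ (by omega)) (hfA (i - m) d)
  have hfin : (pts c (Set.Iic (2 * m - 1))).Finite := by
    unfold pts
    exact (Set.finite_Iic _).biUnion fun i _ => Set.finite_range _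
  have hptsmem : ∀ i d, i ≤ 2 * m - 1 → c i d ∈ pts c (Set.Iic (2 * m - 1)) := by
    intro i d hi
    simp only [pts, Set.mem_iUnion]
    exact ⟨i, hi, d, rfl⟩
  have hcm1 : c (m - 1) = x := c2 (m - 1) (by omega)
  have hcm2 : c (m - 2) = z := by
    rw [c1 (m - 2) (by omega)]
    have : m - 2 - (m - 2) = 0 := by omega
    rw [this, hb0]
  have hcm : c m = z' := by
    rw [c3 m (by omega), Nat.sub_self, hf0]
  have hτ1 : ∀ j, j < m + 1 → ∃ i d, m - 1 ≤ i ∧ i ≤ 2 * m - 1 ∧ (j ≠ 0 → c i d = τ j) := by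
    intro j hj
    rcases Nat.lt_or_ge j 2 with h | h
    · rcases Nat.eq_zero_or_pos j with h0 | h0
      · exact ⟨m - 1, S.t (!(ty ρ (m - 1))), le_rfl, by omega, fun h => absurd h0 h⟩
      · have : j = 1 := by omega
        subst this
        exact ⟨m, S.t (!(ty ρ (m - 1))), by omega, by omega, fun _ => by rw [hcm, hzt']⟩
    · refine ⟨m + (j - 2) + 1, S.t (!(ty (!(ty ρ (m - 1))) (j - 2))), by omega, by omega,
        fun _ => ?_⟩
      rw [c3 _ (by omega)]
      have e1 : m + (j - 2) + 1 - m = (j - 2) + 1 := by omega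
      rw [e1]
      have := hft (j - 2)
      rw [this]
      have e2 : 2 + (j - 2) = j := by omega
      simp only [e2]
  have hAsub : A (2 * m - 1) ⊆ pts c (Set.Iic (2 * m - 1)) := by
    have key : ∀ j, j ≤ 2 * m - 1 → A j ⊆ pts c (Set.Iic (2 * m - 1)) := by
      intro j
      induction j with
      | zero =>
        intro _
        rw [hA0]
        rintro a ⟨d, rfl⟩
        rw [← hcm1]
        exact hptsmem _ _ (by omega)
      | succ j ih =>
        intro hj
        rw [hA]
        refine Set.insert_subset ?_ (ih (by omega))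
        by_cases h0 : j = 0
        · subst h0
          rw [← hzt, ← hcm2]
          exact hptsmem _ _ (by omega)
        · rcases Nat.lt_or_ge j (m + 1) with h | h
          · obtain ⟨i, d, -, hi, hid⟩ := hτ1 j h
            rw [← hid h0]
            exact hptsmem _ _ hi
          · have e1 := hbt (j - (m + 1))
            have e2 : m + 1 + (j - (m + 1)) = j := by omega
            simp only [e2] at e1
            rw [← e1]
            have e3 : b (j - (m + 1) + 1) = c (m - 2 - (j - (m + 1) + 1)) := by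
              rw [c1 _ (by omega)]
              have : m - 2 - (m - 2 - (j - (m + 1) + 1)) = j - (m + 1) + 1 := by omega
              rw [this]
            rw [e3]
            exact hptsmem _ _ (by omega)
    exact key _ le_rfl
  have hrk : rk K (pts c (Set.Iic (2 * m - 1))) + 1 = 3 * m := by
    have h1 := rk_mono (K := K) hfin hAsub
    have h2 := rk_le_of_subset_cl (K := K) (hAf (2 * m - 1)) hsub
    have h3 := hrkA (2 * m - 1)
    omega
  refine ⟨c, hwalk, hsub, hrk, hcm1, hcm2, hcm, ?_⟩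
  -- the forward half
  set g : ℕ → Fin n → L := fun i => c (m - 1 + i) with hg
  have hgw : IsWalk S.P (ty ρ (m - 1)) m g := by
    intro i hi
    have h1 := hwalk (m - 1 + i) (by omega)
    rw [ty_add] at h1
    exact h1
  have hgfin : (pts g (Set.Iic m)).Finite := by
    unfold pts
    exact (Set.finite_Iic _).biUnion fun i _ => Set.finite_range _
  have hgmem : ∀ i d, i ≤ m → g i d ∈ pts g (Set.Iic m) := by
    intro i d hi
    simp only [pts, Set.mem_iUnion]
    exact ⟨i, hi, d, rfl⟩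
  have hins : A (m + 1) ⊆ insert (τ 0) (pts g (Set.Iic m)) := by
    have key : ∀ j, j ≤ m + 1 → A j ⊆ insert (τ 0) (pts g (Set.Iic m)) := by
      intro j
      induction j with
      | zero =>
        intro _
        rw [hA0]
        rintro a ⟨d, rfl⟩
        right
        have : x = g 0 := by rw [hg]; exact hcm1.symm
        rw [this]
        exact hgmem 0 d (Nat.zero_le m)
      | succ j ih =>
        intro hj
        rw [hA]
        refine Set.insert_subset ?_ (ih (by omega))
        by_cases h0 : j = 0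
        · subst h0
          exact Set.mem_insert _ _
        · right
          obtain ⟨i, d, hi1, hi2, hid⟩ := hτ1 j (by omega)
          rw [← hid h0]
          have e1 : c i = g (i - (m - 1)) := by
            simp only [hg]
            have : m - 1 + (i - (m - 1)) = i := by omega
            rw [this]
          rw [e1]
          exact hgmem _ _ (by omega)
    exact key _ le_rfl
  have hgrk : 2 * m ≤ rk K (pts g (Set.Iic m)) := by
    have h1 := rk_mono (K := K) (hgfin.insert (τ 0)) hins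
    have h2 := rk_insert_le (K := K) hgfin (τ 0)
    have h3 := hrkA (m + 1)
    omega
  have hgnb : NB m g := hGNB K n m 1 S.toSys L (ty ρ (m - 1)) m g hgw (by omega)
  have hends := hENDS K n m 1 S.toSys L (ty ρ (m - 1)) m g le_rfl hgw hgnb
  have e0 : g 0 = x := hcm1
  have em : g m = c (2 * m - 1) := by
    simp only [hg]
    have : m - 1 + m = 2 * m - 1 := by omega
    rw [this]
  rw [e0, em] at hends
  refine hgrk.trans (rk_le_of_subset_cl ((Set.finite_range _).union (Set.finite_range _)) ?_)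
  intro a ha
  simp only [pts, Set.mem_iUnion] at ha
  obtain ⟨i, hi, d, rfl⟩ := ha
  exact hends i hi d

omit [IsAlgClosed K] in
/-- substituting elements of the base field in a specialization -/
theorem SETUP_spec_elim {L : Type u} [Field L] [Algebra K L] {s : Set L} {v x q : Fin n → L}
    (h : Spec (cl K s) v x) (hq : ∀ i, q i ∈ cl K s) :
    Spec K (Sum.elim v q) (Sum.elim x q) := by
  intro f hf
  set q' : Fin n → cl K s := fun i => ⟨q i, hq i⟩ with hq'
  set F : MvPolynomial (Fin n) (cl K s) :=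
    aeval (Sum.elim (X : Fin n → MvPolynomial (Fin n) (cl K s)) (fun i => C (q' i))) f with hF
  have key : ∀ y : Fin n → L, aeval y F = aeval (Sum.elim y q) f := by
    intro y
    rw [hF]
    have h1 : ((aeval (R := cl K s) y).restrictScalars K).comp
        (aeval (R := K) (Sum.elim (X : Fin n → MvPolynomial (Fin n) (cl K s))
          (fun i => C (q' i)))) = aeval (R := K) (Sum.elim y q) := by
      apply MvPolynomial.algHom_ext
      rintro (i | i)
      · simp
      · simp only [AlgHom.comp_apply, aeval_X, Sum.elim_inr, AlgHom.restrictScalars_apply]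
        rw [aeval_C]
        rfl
    have h2 := congrArg (fun g => g f) h1
    exact h2
  rw [← key] at hf ⊢
  exact h F hf

omit [IsAlgClosed K] in
theorem SETUP_incl {L : Type u} [Field L] [Algebra K L] (F G : IntermediateField K L)
    (hle : F ≤ G) (a : F) :
    algebraMap G L (IntermediateField.inclusion hle a) = algebraMap F L a := by
  rw [IntermediateField.algebraMap_apply, IntermediateField.algebraMap_apply,
    IntermediateField.coe_inclusion]

omit [IsAlgClosed K] in
theorem SETUP_aeval_map0 {L : Type u} [Field L] [Algebra K L] (F G : IntermediateField K L)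
    (hle : F ≤ G) (y : Fin n → L) (f : MvPolynomial (Fin n) F) :
    aeval y (map (IntermediateField.inclusion hle : F →+* G) f) = aeval y f := by
  induction f using MvPolynomial.induction_on with
  | C a =>
    rw [map_C, aeval_C, aeval_C]
    exact SETUP_incl F G hle a
  | add p q hp hq => rw [map_add, map_add, map_add, hp, hq]
  | mul_X p i hp => rw [map_mul, map_mul, map_mul, hp, map_X, aeval_X, aeval_X]

omit [IsAlgClosed K] in
theorem SETUP_aeval_map {L : Type u} [Field L] [Algebra K L] {s t : Set L}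
    (hle : cl K s ≤ cl K t) (y : Fin n → L) (f : MvPolynomial (Fin n) (cl K s)) :
    aeval y (map (IntermediateField.inclusion hle : cl K s →+* cl K t) f) = aeval y f :=
  SETUP_aeval_map0 _ _ hle y f

/-- The module SETUP. -/
theorem st_SETUP (hBIG : ST_BIG.{u}) (hSTEP1 : ST_STEP1.{u}) (hMWALK : ST_MWALK.{u})
    (hIRR : ST_IRR.{u}) (hLD : ST_LD.{u}) (hPL4 : ST_PL4.{u}) (hENDS : ST_ENDS.{u})
    (hGNB : ST_GNB.{u}) : ST_SETUP.{u} := by
  classical
  intro K _ _ n m S ρ
  have hm : 2 ≤ m := S.two_le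
  obtain ⟨L₀, i1, i2, x₀, y₀, h₀⟩ := SETUP_exists_vtx S.toSys (ty ρ (m - 1))
  obtain ⟨L, j1, j2, j3, hT, hbig⟩ := hBIG K L₀
  have hac : IsAlgClosed L := hbig.alg
  set x : Fin n → L := fun i => algebraMap L₀ L (x₀ i) with hxdef
  have hx : Vtx S.P (ty ρ (m - 1)) x :=
    SETUP_vtx_of_conj (SETUP_vtx_of_edge h₀) (conj_of_algHom (IsScalarTower.toAlgHom K L₀ L) x₀)
  obtain ⟨τ, A, hA0, hAf, hA, hτ⟩ := SETUP_seq (K := K) (Set.range x) (Set.finite_range x)
  have hmono : ∀ i j, i ≤ j → A i ⊆ A j := by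
    intro i j hij
    induction j, hij using Nat.le_induction with
    | base => exact subset_rfl
    | succ j _ ih => rw [hA]; exact ih.trans (Set.subset_insert _ _)
  have hmem : ∀ i j, i < j → τ i ∈ A j := by
    intro i j hij
    apply hmono (i + 1) j hij
    rw [hA]; exact Set.mem_insert _ _
  have hxA : ∀ i c, x c ∈ cl K (A i) := by
    intro i c
    apply mem_cl_of_mem
    apply hmono 0 i (Nat.zero_le i)
    rw [hA0]; exact ⟨c, rfl⟩
  have hτx : ∀ i, τ i ∉ cl K (Set.range x) := by
    intro i h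
    apply hτ i
    rw [← hA0] at h
    exact cl_mono (hmono 0 i (Nat.zero_le i)) h
  have hτne : ∀ i j, i < j → τ i ≠ τ j := by
    intro i j hij h
    apply hτ j
    rw [← h]
    exact mem_cl_of_mem (hmem i j hij)
  -- u and v
  obtain ⟨u, hu, hut⟩ := hSTEP1 K n m S L (ty ρ (m - 1)) x (τ (2 * m)) hx (hτx _)
  have huA : ∀ c, u c ∈ cl K (A (2 * m + 1)) := by
    refine SETUP_nbr_cl' S hu (hxA _) ?_
    rw [hut]; exact mem_cl_of_mem (hmem _ _ (by omega))
  have huV : Vtx S.P (!(ty ρ (m - 1))) u := SETUP_vtx_of_edge' hu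
  have hτu : τ (2 * m + 1) ∉ cl K (Set.range u) := by
    intro h
    apply hτ (2 * m + 1)
    refine cl_le_cl ?_ h
    rintro a ⟨c, rfl⟩
    exact huA c
  obtain ⟨v, hv, hvt⟩ := hSTEP1 K n m S L (!(ty ρ (m - 1))) u (τ (2 * m + 1)) huV hτu
  rw [Bool.not_not] at hvt
  have hvV : Vtx S.P (ty ρ (m - 1)) v := by
    have := SETUP_vtx_of_edge' hv
    rwa [Bool.not_not] at this
  set s : Set L := A (2 * m) with hs
  have hsf : s.Finite := hAf _
  have hsu : ∀ a ∈ s ∪ Set.range u, a ∈ cl K (A (2 * m + 1)) := by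
    rintro a (ha | ⟨c, rfl⟩)
    · exact mem_cl_of_mem (hmono _ _ (by omega) ha)
    · exact huA c
  have hvt' : v (S.t (ty ρ (m - 1))) ∉ cl K (s ∪ Set.range u) := by
    rw [hvt]
    intro h
    exact hτ (2 * m + 1) (cl_le_cl hsu h)
  have hsuf : (s ∪ Set.range u).Finite := hsf.union (Set.finite_range u)
  -- the specialization v → x over cl (s ∪ u)
  have hspec1 : Spec (cl K (Set.range u)) v x :=
    hIRR K n m 1 S.toSys L (!(ty ρ (m - 1))) u v x hv (SETUP_edge_symm hu)
  have hvcl : Set.range v ⊆ cl K (insert (v (S.t (ty ρ (m - 1)))) (Set.range u)) := by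
    have := SETUP_nbr_cl S hv
    rwa [Bool.not_not] at this
  have hspec2 : Spec (cl K (s ∪ Set.range u)) v x := by
    refine hLD K L (Set.range u) (s ∪ Set.range u) (Set.finite_range u) hsuf
      Set.subset_union_right (Fin n) v x ?_ hspec1
    have e1 : rk K (s ∪ Set.range u ∪ Set.range v) = rk K (s ∪ Set.range u) + 1 := by
      rw [← rk_insert_of_notMem hsuf hvt']
      apply rk_congr
      apply le_antisymm
      · apply cl_le_cl
        rintro a (ha | ha)
        · exact mem_cl_of_mem (Set.mem_insert_of_mem _ ha)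
        · refine cl_mono ?_ (hvcl ha)
          exact Set.insert_subset_insert Set.subset_union_right
      · apply cl_le_cl
        rintro a (rfl | ha)
        · exact mem_cl_of_mem (Or.inr ⟨_, rfl⟩)
        · exact mem_cl_of_mem (Or.inl ha)
    have e2 : rk K (Set.range u ∪ Set.range v) = (m + 1) * 1 := S.rkE L _ u v hv
    have e3 : rk K (Set.range u) = m * 1 := S.rkV L _ u v hv
    rw [e1, e2, e3]
    ring
  have hspec3 : Spec (cl K s) v x := by
    intro f hf
    -- restrict the base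
    have hle : cl K s ≤ cl K (s ∪ Set.range u) := cl_mono Set.subset_union_left
    have h1 := hspec2 (map (IntermediateField.inclusion hle : cl K s →+* _) f)
    rw [SETUP_aeval_map hle v f, SETUP_aeval_map hle x f] at h1
    exact h1 hf
  -- the place
  obtain ⟨w, hw1, hw2⟩ := hPL4 K L (s ∪ Set.range u) (Fin n) v x
    (fun i => cl_mono Set.subset_union_left (hxA (2 * m) i)) hspec2
  -- the tails
  have htail : ∀ z ∈ Fib S (ty ρ (m - 1)) x (τ 0), ∀ z' ∈ Fib S (ty ρ (m - 1)) x (τ 1),
      ∃ c a : ℕ → Fin n → L, Tail S ρ s x v c a ∧ c (m - 2) = z ∧ c m = z' := by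
    intro z hz z' hz'
    obtain ⟨c, c1, c2, c3, c4, c5, c6, c7⟩ := SETUP_tail hSTEP1 hENDS hGNB S ρ x hx τ A hA0 hAf hA
      hτ z z' hz hz'
    have hqV : Vtx S.P (ty (ty ρ (m - 1)) m) (c (2 * m - 1)) := by
      have h1 := c1 (2 * m - 2) (by omega)
      have e1 : 2 * m - 2 + 1 = 2 * m - 1 := by omega
      rw [e1] at h1
      have h2 := SETUP_vtx_of_edge' h1
      rw [← ty_add, SETUP_ty_ne ρ (a := m - 1 + m) (b := 2 * m - 2) (by omega)]
      exact h2
    have hqs : ∀ i, c (2 * m - 1) i ∈ cl K s := by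
      intro i
      refine cl_mono (hmono _ _ (by omega)) (c2 ?_)
      simp only [pts, Set.mem_iUnion]
      exact ⟨2 * m - 1, Set.mem_Iic.mpr le_rfl, i, rfl⟩
    have hrk1 : 2 * m ≤ rk K (Set.range v ∪ Set.range (c (2 * m - 1))) := by
      have h1 := (SETUP_spec_elim hspec3 hqs).rk_le
      rw [Set.Sum.elim_range, Set.Sum.elim_range] at h1
      omega
    have hrk2 : rk K (Set.range v ∪ Set.range (c (2 * m - 1))) ≤ 2 * m := by
      have h1 := rk_union_le (K := K) (Set.finite_range v) (Set.finite_range (c (2 * m - 1)))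
      have h2 := SETUP_rk_vtx S.toSys hvV
      have h3 := SETUP_rk_vtx S.toSys hqV
      omega
    obtain ⟨a, a1, a2, a3, a4⟩ := hMWALK K n m 1 S.toSys L (ty ρ (m - 1)) v (c (2 * m - 1)) hvV hqV
      (by omega)
    refine ⟨c, a, ⟨c1, ?_, c3, c4, a1, a2, a3, a4⟩, c5, c6⟩
    intro b hb
    exact cl_mono (hmono _ _ (by omega)) (c2 hb)
  choose c a hca hca2 hca3 using htail
  refine ⟨L, j1, j2, hbig.alg, ⟨?_⟩⟩
  refine
    { s := s
      x := x
      u := u
      v := v
      c₁ := τ 0
      c₂ := τ 1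
      c₄ := τ (2 * m - 1)
      vx := hx
      mov := ?_
      mem₁ := mem_cl_of_mem (hmem _ _ (by omega))
      mem₂ := mem_cl_of_mem (hmem _ _ (by omega))
      mem₄ := mem_cl_of_mem (hmem _ _ (by omega))
      not₁ := hτx _
      not₂ := hτx _
      not₄ := hτx _
      ne₁₂ := hτne _ _ (by omega)
      ne₁₄ := hτne _ _ (by omega)
      ne₂₄ := hτne _ _ (by omega)
      c := fun z z' => if hz : z ∈ Fib S (ty ρ (m - 1)) x (τ 0) then
        if hz' : z' ∈ Fib S (ty ρ (m - 1)) x (τ 1) then c z hz z' hz' else fun _ => x else fun _ => x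
      a := fun z z' => if hz : z ∈ Fib S (ty ρ (m - 1)) x (τ 0) then
        if hz' : z' ∈ Fib S (ty ρ (m - 1)) x (τ 1) then a z hz z' hz' else fun _ => x else fun _ => x
      tail := ?_
      w := w
      wtriv := hw1
      wmem := fun d => (hw2 d).1
      wred := funext fun d => (hw2 d).2 }
  · exact
      { fin := hsf
        xs := hxA _
        xu := hu
        uv := hv
        ut := by rw [hut]; exact hτ _
        vt := hvt' }
  · intro z hz z' hz'
    simp only [dif_pos hz, dif_pos hz']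
    exact ⟨hca z hz z' hz', hca2 z hz z' hz', hca3 z hz z' hz'⟩

end sys

end Pool.Agent.Helper92.GG
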